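import Mathlib
import Pool.Agent.H72.Zp.FlowB

set_option autoImplicit false

/-!
# Points moved by a flow in a compact AR with the property `HDD^∞_{0,0}`
-/

namespace Pool.Agent.Results.MP_e621f2_gt.Flows

open Topology TopologicalSpace Pool.Agent.H72.Zp

universe u

/-- Let `X` be a compact AR with the property `HDD^∞_{0,0}`. Every point of `X` which is moved by
some continuous action of the real line on `X` is a `Z_2`-point. -/
theorem result {X : Type u} [TopologicalSpace X] (hX : CompactAR X) (hH : HDD00 X)
    (φ : Flow ℝ X) {x : X} {t : ℝ} (h : φ t x ≠ x) : IsZPoint 2 x := by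
  have hc := hX.compact
  have hm := hX.metrizable
  letI : MetricSpace X := TopologicalSpace.metrizableSpaceMetric X
  exact flow_zPoint hX hH φ h

end Pool.Agent.Results.MP_e621f2_gt.Flows
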