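import Mathlib
import Pool.Agent.H71.ZW.Main

set_option autoImplicit false

/-!
# A compact AR with the property `HDD^∞_{0,0}` and without `Z_2`-points

`X` is the limit of a tower of compact polyhedra (finite unions of compact convex sets). Let `K` be
an acyclic 2-complex whose fundamental group maps onto the alternating group of degree 5, and `cK`
the cone over it. Every stage has finitely many wild points: points at which a coordinate map of
the stage into `cK` takes the value at the vertex of the cone; all these coordinate maps contain one
essential loop of `K`. A wild point can be split along a connected polyhedron into two wild points by
a map which is a controlled homotopy equivalence, because the suspension of `K` is an absolute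
retract (an explicit sequence of elementary expansions and collapses checked by the kernel).
-/

namespace Pool.Agent.Results.MP_e621f2_gt.NoZ2Points

open Topology TopologicalSpace Pool.Agent.H72.Zp

/-- There is a compact AR with the property `HDD^∞_{0,0}` none of whose points is a `Z_2`-point. -/
theorem result : ∃ (X : Type) (_ : TopologicalSpace X), Nonempty X ∧ CompactAR X ∧ HDD00 X ∧
    ∀ x : X, ¬ IsZPoint 2 x :=
  Pool.Agent.H71.ZW.main

end Pool.Agent.Results.MP_e621f2_gt.NoZ2Points
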