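import Mathlib
import Pool.Agent.H72.Zp.Product

set_option autoImplicit false

/-!
# Points with a product neighbourhood in a compact AR with the property `HDD^∞_{0,0}`
-/

namespace Pool.Agent.Results.MP_e621f2_gt.Products

open Topology TopologicalSpace Pool.Agent.H72.Zp

universe u v w

/-- Let `X` be a compact AR with the property `HDD^∞_{0,0}`. If an open subset of `X` is
homeomorphic to `A × B`, then `(a, b)` is a `Z_2`-point of `X` for all non-isolated points `a` of
`A` and `b` of `B`. -/
theorem result {X : Type u} [TopologicalSpace X] (hX : CompactAR X) (hH : HDD00 X)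
    {A : Type v} {B : Type w} [TopologicalSpace A] [TopologicalSpace B] {e : A × B → X}
    (he : IsOpenEmbedding e) {a : A} {b : B} (ha : ¬ IsOpen ({a} : Set A))
    (hb : ¬ IsOpen ({b} : Set B)) : IsZPoint 2 (e (a, b)) := by
  have hc := hX.compact
  have hm := hX.metrizable
  letI : MetricSpace X := TopologicalSpace.metrizableSpaceMetric X
  exact product_zPoint hX hH he ha hb

end Pool.Agent.Results.MP_e621f2_gt.Products
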